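import Pool.Agent.H987.Y.StA
import Pool.Agent.H194.Z987.Conv
import Pool.Agent.H650.Z987.Free0

/-! Subtask Y-K7 of project Y of helper987: the free Green function. -/

set_option autoImplicit false
set_option linter.unusedSectionVars false

open scoped BigOperators InnerProductSpace Topology
open Filter MeasureTheory

namespace Pool.Agent.H788.Y987

open Pool.Agent.Y662.TR (LL Cf Mw dv hu clp ll_ext dv_apply sub_coord smul_coord Cf_apply)
open Pool.Agent.TH369.AN (Rz)
open Pool.Agent.H987.Z (Rs Gr Fr gZ HV KT KA b0 Sy N1)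
open Pool.Agent.H987.Y
open Pool.Agent.H650.Z987 (ra_mul b0_eq b0_sy b0_Sy b0_N1)

variable {d : ℕ}

/-- the identity -/
abbrev idZ (d : ℕ) : Multiplicative (Fin d → ℤ) →* Multiplicative (Fin d → ℤ) := MonoidHom.id _

/-- the weight as a function of the difference -/
noncomputable def bb (d : ℕ) (v : Lt d) : ℝ := b0 (idZ d) (Multiplicative.ofAdd v)

theorem kf_eq (x y : Lt d) : kf d x y = bb d (y - x) := by
  classical
  unfold kf bb
  rw [b0_eq]
  congr 1
  · rw [mul_ite, mul_one, mul_zero]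
    have h : x = y ↔ Multiplicative.ofAdd (y - x) = (1 : Multiplicative (Fin d → ℤ)) := by
      rw [ofAdd_eq_one, sub_eq_zero, eq_comm]
    by_cases hxy : x = y
    · rw [if_pos hxy, if_pos (h.1 hxy)]
    · rw [if_neg hxy, if_neg fun h' => hxy (h.2 h')]
  · refine Finset.sum_congr rfl fun i _ => ?_
    congr 1
    · have h : y = x + Pi.single i 1 ↔ Multiplicative.ofAdd (y - x) =
          idZ d (Multiplicative.ofAdd (Pi.single i (1 : ℤ))) := by
        rw [MonoidHom.id_apply, Multiplicative.ofAdd.injective.eq_iff, sub_eq_iff_eq_add, add_comm]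
      by_cases hxy : y = x + Pi.single i 1
      · rw [if_pos hxy, if_pos (h.1 hxy)]
      · rw [if_neg hxy, if_neg fun h' => hxy (h.2 h')]
    · have h : y = x - Pi.single i 1 ↔ Multiplicative.ofAdd (y - x) =
          idZ d (Multiplicative.ofAdd (Pi.single i (-1 : ℤ))) := by
        rw [MonoidHom.id_apply, Multiplicative.ofAdd.injective.eq_iff, sub_eq_iff_eq_add, add_comm,
          Pi.single_neg, ← sub_eq_add_neg]
      by_cases hxy : y = x - Pi.single i 1
      · rw [if_pos hxy, if_pos (h.1 hxy)]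
      · rw [if_neg hxy, if_neg fun h' => hxy (h.2 h')]

/-- the differences -/
def dE (x : Lt d) : Lt d ≃ Multiplicative (Fin d → ℤ) :=
  (Equiv.subRight x).trans Multiplicative.ofAdd

theorem dE_apply (x y : Lt d) : dE x y = Multiplicative.ofAdd (y - x) := rfl

theorem kf_ker (d : ℕ) : Ker (4 * d) (kf d) where
  h0 := by positivity
  sy := fun x y => by
    rw [kf_eq, kf_eq]
    unfold bb
    rw [← b0_sy (idZ d) (Multiplicative.ofAdd (x - y)), ← ofAdd_neg, neg_sub]
  sm := fun x => by
    have h := (b0_Sy (idZ d)).sm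
    have h2 := (dE x).summable_iff.2 h
    refine h2.congr fun y => ?_
    rw [kf_eq]
    rfl
  le := fun x => by
    have h := b0_N1 (idZ d)
    unfold N1 at h
    have h2 := (dE x).tsum_eq (fun s => |b0 (idZ d) s|)
    rw [← h2] at h
    refine le_trans (le_of_eq ?_) h
    refine tsum_congr fun y => ?_
    rw [kf_eq]
    rfl

theorem kf_tr (x y v : Lt d) : kf d (x + v) (y + v) = kf d x y := by
  rw [kf_eq, kf_eq]
  congr 1
  abel

theorem kf_rng (x y : Lt d) (h : kf d x y ≠ 0) (i : Fin d) : |x i - y i| ≤ (1 : ℕ) := by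
  classical
  by_contra hcon
  push Not at hcon
  apply h
  unfold kf
  have h1 : x ≠ y := by
    rintro rfl
    rw [sub_self, abs_zero] at hcon
    exact absurd hcon (by norm_num)
  rw [if_neg h1, zero_sub, neg_eq_zero]
  refine Finset.sum_eq_zero fun j _ => ?_
  have hs : ∀ c : ℤ, |c| ≤ 1 → |(Pi.single j c : Lt d) i| ≤ 1 := by
    intro c hc
    by_cases hij : i = j
    · subst hij
      rw [Pi.single_eq_same]
      exact hc
    · rw [Pi.single_eq_of_ne hij, abs_zero]
      norm_num
  have h2 : y ≠ x + Pi.single j 1 := by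
    rintro rfl
    rw [Pi.add_apply] at hcon
    have e : x i - (x i + (Pi.single j (1 : ℤ) : Lt d) i) = -((Pi.single j (1 : ℤ) : Lt d) i) := by
      ring
    rw [e, abs_neg] at hcon
    have := hs 1 (by norm_num)
    push_cast at hcon
    omega
  have h3 : y ≠ x - Pi.single j 1 := by
    rintro rfl
    rw [Pi.sub_apply] at hcon
    have e : x i - (x i - (Pi.single j (1 : ℤ) : Lt d) i) = ((Pi.single j (1 : ℤ) : Lt d) i) := by
      ring
    rw [e] at hcon
    have := hs 1 (by norm_num)
    push_cast at hcon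
    omega
  rw [if_neg h2, if_neg h3, add_zero]

/-- **K7.** -/
theorem free (h1 : Pool.Agent.H987.Y.S_op) : Pool.Agent.H987.Y.S_free := by
  intro d
  have hk := kf_ker d
  refine ⟨hk, ⟨hk, fun x y v => ?_, fun x y h i => kf_rng x y h i⟩, kf_tr, ?_⟩
  · rw [Nat.cast_one, one_smul]
    exact kf_tr x y v
  intro z hz
  have hop := h1 (Lt d) (kf d) (4 * d) hk
  have sa1 : IsSelfAdjoint (Op (kf d)) := hop.2.2.1.sa
  have hc := Pool.Agent.H194.Z987.conv _ _ (fun s => Equiv.mulRight s) ra_mul (b0 (idZ d))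
    (b0 (idZ d)) (b0_Sy (idZ d)) (b0_Sy (idZ d))
  have sa2 : IsSelfAdjoint (KT (b0 (idZ d))) := hc.2.2.1.sa
  obtain ⟨u, hu⟩ : ∃ u : LL (Multiplicative (Fin d → ℤ)), u = Rz (KT (b0 (idZ d))) z (dv 1) :=
    ⟨_, rfl⟩
  have hu1 := Pool.Agent.TH369.AN.rz_eq (KT (b0 (idZ d))) sa2 z hz (dv 1)
  rw [← hu] at hu1
  obtain ⟨w, hw⟩ : ∃ w : LL (Lt d), w = Cf (fun x : Lt d => Multiplicative.ofAdd x)
    Multiplicative.ofAdd.injective u := ⟨_, rfl⟩
  have hwx : ∀ x : Lt d, w x = u (Multiplicative.ofAdd x) := fun x => by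
    rw [hw, Cf_apply]
  have hkey : Op (kf d) w - z • w = dv 0 := by
    apply ll_ext
    intro x
    rw [sub_coord, smul_coord, (hop.1 w x).2]
    have h2 := congrArg (fun v : LL (Multiplicative (Fin d → ℤ)) => v (Multiplicative.ofAdd x)) hu1
    simp only [sub_coord, smul_coord] at h2
    have h3 : KT (b0 (idZ d)) u (Multiplicative.ofAdd x) =
        ∑' y, ((kf d x y : ℝ) : ℂ) * w y := by
      unfold KT
      rw [(hc.1 u (Multiplicative.ofAdd x)).2, ← (dE x).tsum_eq]
      refine tsum_congr fun y => ?_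
      have e : (Equiv.mulRight (Multiplicative.ofAdd (y - x))) (Multiplicative.ofAdd x) =
          Multiplicative.ofAdd y := by
        show Multiplicative.ofAdd x * Multiplicative.ofAdd (y - x) = _
        rw [← ofAdd_add, add_sub_cancel]
      rw [kf_eq, hwx, dE_apply, e]
      rfl
    rw [← h3, hwx, h2, dv_apply, dv_apply]
    have h4 : Multiplicative.ofAdd x = (1 : Multiplicative (Fin d → ℤ)) ↔ x = 0 := ofAdd_eq_one
    by_cases hx : x = 0
    · rw [if_pos hx, if_pos (h4.2 hx)]
    · rw [if_neg hx, if_neg fun h' => hx (h4.1 h')]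
  have hfin := Pool.Agent.TH369.AN.rz_uniq (Op (kf d)) sa1 z hz w (dv 0) hkey
  unfold gZ Gr
  rw [← hfin, hwx, hu]
  rfl

end Pool.Agent.H788.Y987
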